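import Pool.Agent.W5h86.MU.Fwd
import Pool.Agent.Y148.BB.Curve

/-!
# Murre's conjectures for all motives imply (D) in families
-/

set_option autoImplicit false

open CategoryTheory AlgebraicGeometry

universe u v w

namespace Pool.Agent.W5h86.MU

open Pool.Agent.H914 Pool.Agent.H914.VarClass Pool.Agent.H914.VarClass.Obj Pool.Agent.W492.BB
  Pool.Agent.W550.Corr Pool.Agent.TH133 Pool.Agent.X308.S Pool.Agent.Y148.BB

set_option linter.unusedSectionVars false

variable {k : Type u} [Field k] {𝒱 : VarClass k} {C : TheoryData.{u, v, 0} 𝒱 ℚ}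
  [hC : IsChowProj C]

section chow

variable {X Y Z W E : 𝒱.Obj}

include hC

lemma hasDegree_sub {x y : C.A X} {q r : ℚ} (hx : HasDegree C x q) (hy : HasDegree C y r) :
    HasDegree C (x - y) (q - r) := by
  intro Z
  rw [map_sub, map_sub, map_sub, map_sub, (hx Z).1, (hy Z).1, (hx Z).2, (hy Z).2, sub_smul]
  exact ⟨rfl, rfl⟩

/-- Push-forwards preserve the degrees of zero-cycles. -/
lemma hasDegree_push (f : X ⟶ Y) {x : C.A X} {q : ℚ} (hq : HasDegree C x q) :
    HasDegree C (C.push f x) q := by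
  intro Z
  constructor
  · have e1 : prodMap f (𝟙 Z) ≫ snd Y Z = snd X Z := by simp
    rw [C.base_fst, ← C.push_comp, e1]
    exact (hq Z).1
  · have e1 : prodMap (𝟙 Z) f ≫ fst Z Y = fst Z X := by simp
    rw [C.base_snd, ← C.push_comp, e1]
    exact (hq Z).2

/-- The intersection with the diagonal. -/
lemma hasDegree_mul_dg {x : C.A (X.prod X)} {q : ℚ}
    (hq : HasDegree C (C.pull (Obj.lift (𝟙 X) (𝟙 X)) x) q) : HasDegree C (x * dg C X) q := by
  rw [dg, TheoryData.graph, ← C.proj_left, mul_one]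
  exact hasDegree_push _ hq

lemma hasDegree_ext_left {o : C.A E} (hd : HasDegree C o 1) :
    HasDegree C (C.ext o (1 : C.A E) * dg C E) 1 := by
  apply hasDegree_mul_dg
  rw [TheoryData.ext, map_mul, ← C.pull_comp, ← C.pull_comp, lift_fst, C.pull_id, map_one,
    mul_one]
  exact hd

lemma hasDegree_ext_right {o : C.A E} (hd : HasDegree C o 1) :
    HasDegree C (C.ext (1 : C.A E) o * dg C E) 1 := by
  apply hasDegree_mul_dg
  rw [TheoryData.ext, map_mul, ← C.pull_comp, ← C.pull_comp, lift_snd, C.pull_id, map_one,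
    one_mul]
  exact hd

end chow

variable {K : Type w} [Field K]
  {H : WeilTheoryData.{u, v, w} C K} [hH : IsWeilProj H] {B E X Y Z W : 𝒱.Obj}
  {𝒮 : ∀ X : 𝒱.Obj, (ℕ → C.A (X.prod X)) → Prop}

include hC hH

/-- A curve of positive genus, with a chosen Chow-Kunneth decomposition. -/
theorem exists_posCurve (h : HasPositiveGenusCurve C) (hS : IsSystem H 𝒮) :
    ∃ (E : 𝒱.Obj) (τ : ℕ → C.A (E.prod E)), IsPosCurve H 𝒮 E τ := by
  obtain ⟨E, q, hd, hq, hdeg⟩ := h
  obtain ⟨o, ho, ho1, ho2⟩ := hC.exists_deg_one E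
  have hod : HasDegree C o 1 := fun Y => by rw [one_smul]; exact ⟨ho2 Y, ho1 Y⟩
  have ho' : C.Deg 1 o := by
    rw [hd] at ho
    exact_mod_cast ho
  have hck := curveCK_isCK H hd ho' hod
  obtain ⟨τ, hτ⟩ := hS.exists_mem E
  have hτck := hS.ck E τ hτ
  have hcl : H.cl (τ 1 - curveCK C o 1) = 0 := by
    apply cl_zero_of
    intro m a ha
    rw [map_sub, TheoryData.act_sub, hτck.actH_eq 1 m ha, hck.actH_eq 1 m ha, sub_self]
  have h1 : HasDegree C (curveCK C o 1 * dg C E) (q - 1 - 1) := by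
    have e1 : curveCK C o 1 = dg C E - C.ext o 1 - C.ext 1 o := rfl
    rw [e1, sub_mul, sub_mul]
    exact hasDegree_sub (hasDegree_sub hdeg (hasDegree_ext_left hod)) (hasDegree_ext_right hod)
  have hmem : ∀ Γ : C.A (E.prod E), Γ ∈ C.gr (E.prod E) E.dim →
      Γ * dg C E ∈ C.gr (E.prod E) (E.prod E).dim := by
    intro Γ hΓ
    have h2 := C.mul_mem hΓ (dg_mem C E)
    rw [dim_prod]
    push_cast
    exact h2
  obtain ⟨r, hr⟩ := exists_hasDegree (hmem (τ 1) (hτck.deg 1))
  have h2 : HasDegree C ((τ 1 - curveCK C o 1) * dg C E) 0 := by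
    apply hasDegree_zero_of_cl H (hmem _ (Submodule.sub_mem _ (hτck.deg 1) (hck.deg 1)))
    rw [map_mul, hcl, zero_mul]
  have h3 : HasDegree C ((τ 1 - curveCK C o 1) * dg C E) (r - (q - 1 - 1)) := by
    rw [sub_mul]
    exact hasDegree_sub hr h1
  have h4 := hasDegree_unique H h3 h2
  refine ⟨E, τ, hd, hτ, hτck, r, ?_, hr⟩
  intro h0
  apply hq
  linarith

/-- A variety with a Chow-Kunneth decomposition has one whose top part is `B × b` for a zero-cycle
`b`. -/
theorem exists_top {P : ℕ → Cor C B} (hP : IsCK H B P) :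
    ∃ (ρ : ℕ → Cor C B) (b : C.A B), IsCK H B ρ ∧ b ∈ C.gr B B.dim ∧
      ρ (2 * B.dim) = C.ext (1 : C.A B) b := by
  obtain ⟨o, ho, ho1, ho2⟩ := hC.exists_deg_one B
  have hod : HasDegree C o 1 := fun Y => by rw [one_smul]; exact ⟨ho2 Y, ho1 Y⟩
  set e := B.dim with he
  set T : Cor C B := P (2 * e) with hT
  have hTm : T ∈ cor0 C B := hP.deg _
  have hTT : T * T = T := by rw [hT, IsCK.mul_eq hP, if_pos rfl]
  set b : C.A B := C.act (X := B) (Y := B) T o with hb
  have hbm : b ∈ C.gr B B.dim := act_mem0 C hTm ho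
  have hTb : C.act (X := B) (Y := B) T b = b := by
    have h1 := C.act_comp (X := B) (Y := B) (Z := B) T T o
    have h2 : C.comp (X := B) (Y := B) (Z := B) T T = T := hTT
    rw [h2] at h1
    exact h1.symm
  have hclb : H.cl b = H.cl o := by
    have h1 : H.cl (C.act (X := B) (Y := B) T o) = H.act (X := B) (Y := B)
        (H.cl (X := B.prod B) T) (H.cl o) := cl_act H _ _
    rw [hb, h1]
    apply hP.act_self (2 * e)
    have h2 := H.cl_mem ho
    exact_mod_cast h2
  have hbd : HasDegree C b 1 := by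
    obtain ⟨q, hq⟩ := exists_hasDegree hbm
    have h1 : HasDegree C (b - o) 0 := by
      apply hasDegree_zero_of_cl H (Submodule.sub_mem _ hbm ho)
      rw [map_sub, hclb, sub_self]
    have h2 := hasDegree_unique H (hasDegree_sub hq hod) h1
    have h3 : q = 1 := by linarith
    rwa [h3] at hq
  let σ : Cor C B := C.ext (1 : C.A B) b
  have hσm : σ ∈ cor0 C B := by
    have := ext_mem' (C := C) (C.one_mem B) hbm
    rw [zero_add] at this
    exact this
  have hσσ : σ * σ = σ := by
    have h1 := comp_ext_ext (C := C) (v := (1 : C.A B)) (α := b) (v' := (1 : C.A B)) (α' := b)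
      (q := 1) (by rwa [mul_one])
    rw [one_smul] at h1
    exact h1
  have hTσ : T * σ = σ := by
    have h1 := ext_comp (C := C) (1 : C.A B) b T
    rw [hTb] at h1
    exact h1
  have hone : C.act (tp C (X := B) (Y := B) T) (1 : C.A B) = 1 := by
    rw [← sub_eq_zero]
    apply gr_zero_eq (H := H)
    · apply Submodule.sub_mem _ _ (C.one_mem B)
      exact act_mem0 C (tp_mem C hTm) (C.one_mem B)
    · have h1 := hP.dual.act_self 0 (1 : H.A B) (H.one_mem B)
      have h2 : dualCK C P 0 = tp C (X := B) (Y := B) T := by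
        unfold dualCK
        rw [if_pos (Nat.zero_le _)]
        rfl
      rw [h2] at h1
      rw [map_sub, cl_act H, map_one, h1, sub_self]
  have hσT : σ * T = σ := by
    have h1 := comp_ext (C := C) T (1 : C.A B) b
    rw [hone] at h1
    exact h1
  have hact : ∀ (x : H.A B), x ∈ H.gr B (2 * e) → actH C B H σ x = x :=
    fun x hx => act_e2_two H (o := b) hbm hbd hx
  let N : Cor C B := T - σ
  have hNm : N ∈ cor0 C B := (cor0 C B).sub_mem hTm hσm
  have hNN : N * N = N := by
    simp only [N]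
    rw [mul_sub, sub_mul, sub_mul, hTT, hσT, hTσ, hσσ, sub_self, sub_zero]
  have hTN : T * N = N := by
    simp only [N]
    rw [mul_sub, hTT, hTσ]
  have hNT : N * T = N := by
    simp only [N]
    rw [sub_mul, hTT, hσT]
  have hcl : H.cl (X := B.prod B) N = 0 := by
    apply actH_ext
    intro m x hx
    rw [← hNT, map_mul, Module.End.mul_apply, IsCK.actH_eq' hP (2 * e) m hx]
    split_ifs with hm
    · have hx' : x ∈ H.gr B (2 * e) := by
        rw [hm] at hx
        exact_mod_cast hx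
      have h1 : actH C B H T x = x := by
        rw [hT, IsCK.actH_eq' hP (2 * e) m hx, if_pos hm]
      simp only [N]
      rw [map_sub, LinearMap.sub_apply, hact x hx', h1, sub_self]
    · rw [map_zero]
  by_cases h0 : e = 0
  · refine ⟨P, b, hP, hbm, ?_⟩
    have h1 : (N : C.A (B.prod B)) = 0 := by
      apply gr_zero_eq (H := H) _ hcl
      have h2 : (N : C.A (B.prod B)) ∈ C.gr (B.prod B) B.dim := hNm
      rw [← he, h0] at h2
      exact_mod_cast h2
    have h2 : T - σ = 0 := h1
    exact sub_eq_zero.1 h2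
  · refine ⟨mv P N (2 * e) 0, b, IsCK.move hP hNm hNN hcl (by omega) hTN hNT le_rfl
      (Nat.zero_le _), hbm, ?_⟩
    have h1 : mv P N (2 * e) 0 (2 * e) = T - N := if_pos rfl
    rw [h1]
    simp only [N]
    rw [sub_sub_cancel]

theorem exists_top' {P : ℕ → C.A (B.prod B)} (hP : IsCK H B P) :
    ∃ (ρ : ℕ → C.A (B.prod B)) (b : C.A B), IsCK H B ρ ∧ b ∈ C.gr B B.dim ∧
      ρ (2 * B.dim) = C.ext (1 : C.A B) b := exists_top (P := P) hP

/-- **Murre's conjectures for all motives imply (D) in families.** -/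
theorem family_of_murreAll (hM : MurreAll H) (B X : 𝒱.Obj) (π : ℕ → C.A (X.prod X))
    (hπ : IsCK H X π) : FamilyD H B π := by
  intro i z hz hk
  obtain ⟨P, hP⟩ := varietyA_of_murreAll hM B
  obtain ⟨ρ, b, hρ, hb, hρb⟩ := exists_top' hP
  have hBX : MurreB0 H (B.prod X) := by
    rw [murreB0_iff]
    intro μ hμ i j x hx hij
    exact B0_of_murreAll hM (P := μ) hμ hx hij
  have h1 : C.comp z (π (2 * i)) = ∑ m ∈ Finset.range (2 * B.dim + 1),
      C.comp (C.comp (ρ m) z) (π (2 * i)) := by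
    rw [← sum_comp, ← sum_comp, hρ.sum, dg_comp]
  rw [h1, Finset.sum_range_succ]
  have h2 : ∑ m ∈ Finset.range (2 * B.dim), C.comp (C.comp (ρ m) z) (π (2 * i)) = 0 := by
    apply Finset.sum_eq_zero
    intro m hm
    rw [Finset.mem_range] at hm
    exact comp_zero_of_B0 hBX hρ hπ (i := i) (j := m) (b := 2 * i) hz (by omega)
  rw [h2, zero_add]
  have h3 : C.act z b ∈ C.gr X i := act_deg hz hb (by ring)
  have h4 : H.cl (C.act z b) = 0 := by
    rw [cl_act H]
    exact hk _ (H.cl_mem hb)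
  have h5 : C.act (π (2 * i)) (C.act z b) = 0 := D_of_murreAll hM (P := π) hπ h3 h4
  rw [hρb, ext_comp, ext_comp, h5, TheoryData.ext_zero_right]

/-- All Chow-Kunneth decompositions form a system. -/
theorem isSystem_all (hA : VarietyA H) : IsSystem H (fun X π => IsCK H X π) where
  exists_mem := hA
  ck _ _ h := h
  prod _ _ _ _ h h' := h.prod h'
  dual _ _ h := h.dual

/-- **Murre's conjectures for all motives are equivalent to (A) for varieties and (D) in
families.** -/
theorem murreAll_tfae (hE : HasPositiveGenusCurve C) :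
    List.TFAE [MurreAll H,
      VarietyA H ∧ ∀ (B X : 𝒱.Obj) (π : ℕ → C.A (X.prod X)), IsCK H X π → FamilyD H B π,
      ∃ 𝒮 : ∀ X : 𝒱.Obj, (ℕ → C.A (X.prod X)) → Prop, IsSystem H 𝒮 ∧
        ∀ (X : 𝒱.Obj) (π : ℕ → C.A (X.prod X)), 𝒮 X π → FamilyD H X π] := by
  tfae_have 1 → 2 := fun hM => ⟨varietyA_of_murreAll hM, family_of_murreAll hM⟩
  tfae_have 2 → 3 := fun h => ⟨_, isSystem_all h.1, fun X π => h.2 X X π⟩
  tfae_have 3 → 1 := by
    rintro ⟨𝒮, hS, hD⟩
    obtain ⟨E, τ, hτ⟩ := exists_posCurve hE hS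
    exact murreAll_of hD hS hτ
  tfae_finish

end Pool.Agent.W5h86.MU
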