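import Pool.Agent.W5h86.MU.Defs
import Pool.Agent.X308.S.Key
import Pool.Agent.TH133.Base

/-!
# (D) in families implies (D) and the first half of (B)
-/

set_option autoImplicit false

open CategoryTheory AlgebraicGeometry

universe u v w

namespace Pool.Agent.W5h86.MU

open Pool.Agent.H914 Pool.Agent.H914.VarClass Pool.Agent.H914.VarClass.Obj Pool.Agent.W492.BB
  Pool.Agent.W550.Corr Pool.Agent.TH133 Pool.Agent.X308.S Pool.Agent.Y148.BB

set_option linter.unusedSectionVars false

variable {k : Type u} [Field k] {𝒱 : VarClass k} {C : TheoryData.{u, v, 0} 𝒱 ℚ}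
  [hC : IsChowProj C] {K : Type w} [Field K]
  {H : WeilTheoryData.{u, v, w} C K} [hH : IsWeilProj H] {B E X Y Z W : 𝒱.Obj}
  {𝒮 : ∀ X : 𝒱.Obj, (ℕ → C.A (X.prod X)) → Prop}

include hC hH

/-- Cohomology classes of too large degree vanish. -/
lemma hgr_top {a : H.A X} {m : ℤ} (ha : a ∈ H.gr X m) (h : 2 * (X.dim : ℤ) < m) : a = 0 := by
  rw [gr_top H h] at ha
  exact (Submodule.mem_bot _).1 ha

/-- The action of an external product on the cohomology. -/
lemma actH_ext_eq (v : C.A X) (y : C.A Y) (a : H.A X) :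
    H.act (H.cl (C.ext v y)) a =
      H.cl y * H.push (snd X Y) (H.pull (fst X Y) (H.cl v * a)) := by
  have e1 : H.cl (C.ext v y) = H.pull (snd X Y) (H.cl y) * H.pull (fst X Y) (H.cl v) := by
    rw [TheoryData.ext, ch_comm C, map_mul, H.cl_pull, H.cl_pull]
  rw [TheoryData.act_apply, e1, mul_assoc, ← map_mul, H.proj_left]

/-- External products with a class of positive degree are homologically trivial on the fibres. -/
lemma kills_ext {s : ℕ} (hs : 1 ≤ s) {v : C.A X} (hv : v ∈ C.gr X s) (y : C.A Y) :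
    Kills H (C.ext v y) (2 * X.dim) := by
  intro a ha
  rw [actH_ext_eq]
  have h1 : H.cl v * a ∈ H.gr X (2 * (s : ℤ) + 2 * X.dim) := H.mul_mem (H.cl_mem hv) ha
  rw [hgr_top h1 (by omega), map_zero, map_zero, mul_zero]

lemma kills_ext_hom (v : C.A X) {y : C.A Y} (hy : H.cl y = 0) (m : ℤ) :
    Kills H (C.ext v y) m := by
  intro a _
  rw [actH_ext_eq, hy, zero_mul]

/-- A class `y` vanishes if `v × y` vanishes for some `v` with dual class `u`. -/
lemma zero_of_ext {v u : C.A X} (hvu : C.push (snd X X) (C.pull (fst X X) (v * u)) = 1)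
    {y : C.A X} (h : C.ext v y = 0) : y = 0 := by
  have h1 := act_ext (H := H) v u y
  rw [hvu, one_mul, h, TheoryData.act_zero] at h1
  exact h1.symm

/-- (D) in families implies (D). -/
lemma D_of_family (hD : ∀ (X : 𝒱.Obj) (π : ℕ → C.A (X.prod X)), 𝒮 X π → FamilyD H X π) {π : ℕ → C.A (X.prod X)} (h : 𝒮 X π) {i : ℕ} {x : C.A X}
    (hx : x ∈ C.gr X i) (hcl : H.cl x = 0) : C.act (π (2 * i)) x = 0 := by
  obtain ⟨u, hu, v, hv, huv⟩ := exists_dual_pair (C := C) (H := H) X (l := 0) (Nat.zero_le _)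
  have hz : C.ext u x ∈ C.gr (X.prod X) i := by
    have := ext_mem' (C := C) hu hx
    simpa using this
  have h1 := hD X π h i _ hz (kills_ext_hom u hcl _)
  rw [ext_comp] at h1
  rw [ch_comm C v u] at huv
  exact zero_of_ext (H := H) huv h1

/-- (D) in families implies the vanishing in (B) for weights of even excess. -/
lemma even_of_family (hD : ∀ (X : 𝒱.Obj) (π : ℕ → C.A (X.prod X)), 𝒮 X π → FamilyD H X π) (hS : IsSystem H 𝒮) {π : ℕ → C.A (X.prod X)}
    (h : 𝒮 X π) {i s : ℕ}
    (hs : 1 ≤ s) {x : C.A X} (hx : x ∈ C.gr X i) : C.act (π (2 * (i + s))) x = 0 := by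
  by_cases hd : 2 * X.dim < 2 * (i + s)
  · rw [(hS.ck X π h).out _ hd, TheoryData.act_zero]
  obtain ⟨u, hu, v, hv, huv⟩ := exists_dual_pair (C := C) (H := H) X (l := s) (by omega)
  have hz : C.ext u x ∈ C.gr (X.prod X) ((i + s : ℕ) : ℤ) := by
    have := ext_mem' (C := C) hu hx
    rw [add_comm] at this
    exact_mod_cast this
  have h1 := hD X π h (i + s) _ hz (kills_ext hs hu x)
  rw [ext_comp] at h1
  rw [ch_comm C v u] at huv
  exact zero_of_ext (H := H) huv h1

end Pool.Agent.W5h86.MU
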