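import Pool.Agent.W5h86.MU.Mot
import Pool.Agent.X308.S.Ring

/-!
# Murre's conjectures for motives under (D) in families
-/

set_option autoImplicit false

open CategoryTheory AlgebraicGeometry

universe u v w

namespace Pool.Agent.W5h86.MU

open Pool.Agent.H914 Pool.Agent.H914.VarClass Pool.Agent.H914.VarClass.Obj Pool.Agent.W492.BB
  Pool.Agent.W550.Corr Pool.Agent.TH133 Pool.Agent.X308.S Pool.Agent.Y148.BB

set_option linter.unusedSectionVars false

variable {k : Type u} [Field k] {𝒱 : VarClass k} {C : TheoryData.{u, v, 0} 𝒱 ℚ}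
  [hC : IsChowProj C] {K : Type w} [Field K]
  {H : WeilTheoryData.{u, v, w} C K} [hH : IsWeilProj H] {B E X Y Z W : 𝒱.Obj}
  {𝒮 : ∀ X : 𝒱.Obj, (ℕ → C.A (X.prod X)) → Prop}

include hC hH

/-- A criterion for Chow-Kunneth decompositions of motives, in terms of cohomological weights. -/
lemma motiveCK_of {p : Cor C X} (n : ℤ) (s : Finset ℤ) (Q : ℤ → Cor C X)
    (hm : ∀ w, Q w ∈ cor0 C X) (hout : ∀ w, w ∉ s → Q w = 0)
    (hmul : ∀ i j, Q i * Q j = if i = j then Q i else 0) (hsum : ∑ w ∈ s, Q w = p)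
    (hact : ∀ (w m : ℤ) (a : H.A X), a ∈ H.gr X m → m ≠ w → actH C X H (Q w) a = 0) :
    IsMotiveCK H p n (fun i => Q (2 * X.dim - (i - 2 * n))) := by
  let e : ℤ → ℤ := fun i => 2 * X.dim - (i - 2 * n)
  have he : ∀ i, e (e i) = i := fun i => by simp only [e]; ring
  have hsupp : {i | Q (e i) ≠ 0} ⊆ ((s.image e : Finset ℤ) : Set ℤ) := by
    intro i hi
    rw [Finset.coe_image]
    refine ⟨e i, ?_, he i⟩
    by_contra hcon
    exact hi (hout _ hcon)
  have hsum' : finsum (fun i => Q (e i)) = p := by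
    rw [finsum_eq_sum_of_support_subset (s := s.image e) _ hsupp,
      Finset.sum_image (fun x _ y _ hxy => by rw [← he x, hxy, he])]
    have h5 : ∀ w ∈ s, Q (e (e w)) = Q w := fun w _ => by rw [he]
    rw [Finset.sum_congr rfl h5]
    exact hsum
  refine ⟨(s.image e).finite_toSet.subset hsupp, fun i => hm _,
    fun i => ?_, fun i j hij => ?_, hsum', fun i a ha => ?_, fun i m a hm' ha => ?_⟩
  · have h5 := hmul (e i) (e i)
    rw [if_pos rfl] at h5
    exact h5
  · have h5 := hmul (e j) (e i)
    rw [if_neg (by simp only [e]; omega)] at h5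
    exact h5
  · have h6 : actH C X H p a = ∑ w ∈ s, actH C X H (Q w) a := by
      rw [← hsum, map_sum, LinearMap.sum_apply]
    have h5 : actH C X H p a = actH C X H (Q (e i)) a := by
      rw [h6]
      have ha' : a ∈ H.gr X (e i) := ha
      apply Finset.sum_eq_single (e i)
      · intro w _ hw
        exact hact w _ a ha' (Ne.symm hw)
      · intro h7
        rw [hout _ h7, map_zero, LinearMap.zero_apply]
    exact h5.symm
  · exact hact (e i) m a ha hm'

section fields

variable {p : Cor C X} {n : ℤ} {π : ℤ → Cor C X}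

/-- The summands as elements of the ring of correspondences. -/
lemma mck_idem (h : IsMotiveCK H p n π) (i : ℤ) : π i * π i = π i := h.idem i

lemma mck_orth (h : IsMotiveCK H p n π) {i j : ℤ} (hij : i ≠ j) : π i * π j = 0 :=
  h.orth j i (Ne.symm hij)

lemma mck_sum (h : IsMotiveCK H p n π) : ∃ s : Finset ℤ, (∀ i, i ∉ s → π i = 0) ∧
    ∑ i ∈ s, π i = p := by
  have hfin : {i | π i ≠ 0}.Finite := h.finite
  refine ⟨hfin.toFinset, fun i hi => ?_, ?_⟩
  · by_contra hcon
    exact hi (hfin.mem_toFinset.2 hcon)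
  · have h1 : finsum (fun i => π i) = ∑ i ∈ hfin.toFinset, π i :=
      finsum_eq_sum_of_support_subset (fun i => π i) (by
        intro i hi
        exact hfin.mem_toFinset.2 hi)
    have h2 : finsum (fun i => π i) = p := h.sum
    rw [← h1, h2]

lemma mck_left (h : IsMotiveCK H p n π) (i : ℤ) : p * π i = π i := by
  obtain ⟨s, hs, hsum⟩ := mck_sum h
  rw [← hsum, Finset.sum_mul]
  by_cases hi : i ∈ s
  · rw [Finset.sum_eq_single_of_mem i hi (fun j _ hj => mck_orth h hj), mck_idem h]
  · rw [hs i hi]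
    simp

lemma mck_act (h : IsMotiveCK H p n π) (i : ℤ) (m : ℤ) (a : H.A X)
    (hm : m ≠ 2 * X.dim - (i - 2 * n)) (ha : a ∈ H.gr X m) :
    actH C X H (π i) a = 0 := h.act_ne i m a hm ha

/-- The filtration does not depend on the decomposition. -/
theorem motFil_le {P : ℕ → Cor C X} (hP : Good H X P)
    {π' : ℤ → Cor C X} (h : IsMotiveCK H p n π) (h' : IsMotiveCK H p n π') (l ν : ℤ) :
    motFil C (X := X) n π l ν ≤ motFil C (X := X) n π' l ν := by
  unfold motFil
  refine iSup_le fun ⟨i, hi⟩ => ?_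
  rintro _ ⟨x, hx, rfl⟩
  obtain ⟨s, hs, hsum⟩ := mck_sum h'
  set y : C.A X := actC C X (π i) x with hy
  have hact : ∀ (a b : Cor C X) (z : C.A X), actC C X (a * b) z = actC C X a (actC C X b z) :=
    fun a b z => by rw [map_mul]; rfl
  have h1 : y = ∑ j ∈ s, actC C X (π' j) y := by
    rw [← LinearMap.sum_apply, ← map_sum, hsum, hy, ← hact, mck_left h]
  change y ∈ _
  rw [h1]
  apply Submodule.sum_mem
  intro j _
  by_cases hji : j < i
  · have h2 : π' j * π i = 0 := by
      exact hP.mul_eq_zero_of_lt (w := 2 * X.dim - (i - 2 * n)) (w' := 2 * X.dim - (j - 2 * n))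
        (h.deg i) (h'.deg j) (mck_idem h i) (mck_idem h' j) (by omega)
        (fun m a hm ha => mck_act h i m a hm ha) (fun m a hm ha => mck_act h' j m a hm ha)
    rw [hy, ← hact, h2, map_zero, LinearMap.zero_apply]
    exact Submodule.zero_mem _
  · have hle : 2 * l + ν ≤ j := by omega
    apply Submodule.mem_iSup_of_mem (⟨j, hle⟩ : {i : ℤ // 2 * l + ν ≤ i})
    exact ⟨y, actC_mem (H := H) (h.deg i) hx, rfl⟩

end fields

section ideals

variable (P : ℕ → Cor C X)

omit hH in
/-- The correspondences which factor through `h^w(X)`. -/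
noncomputable def wI (w : ℕ) : Submodule ℚ (Cor C X) :=
  Submodule.span ℚ {z | ∃ x ∈ cor0 C X, ∃ y ∈ cor0 C X, z = x * P w * y}

variable {P}

lemma wI_le (hP : Good H X P) {w : ℕ} {x : Cor C X} (hx : x ∈ wI P w) : x ∈ cor0 C X := by
  have h1 : wI P w ≤ Subalgebra.toSubmodule (cor0 C X) := by
    unfold wI
    rw [Submodule.span_le]
    rintro _ ⟨x, hx, y, hy, rfl⟩
    exact (cor0 C X).mul_mem ((cor0 C X).mul_mem hx (hP.mem w)) hy
  exact h1 hx

lemma wI_left {w : ℕ} {a x : Cor C X} (ha : a ∈ cor0 C X) (hx : x ∈ wI P w) :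
    a * x ∈ wI P w := by
  unfold wI at hx
  induction hx using Submodule.span_induction with
  | mem x hx =>
    obtain ⟨x, hx, y, hy, rfl⟩ := hx
    apply Submodule.subset_span
    exact ⟨a * x, (cor0 C X).mul_mem ha hx, y, hy, by simp only [mul_assoc]⟩
  | zero => rw [mul_zero]; exact Submodule.zero_mem _
  | add x y _ _ hx hy => rw [mul_add]; exact Submodule.add_mem _ hx hy
  | smul q x _ hx => rw [mul_smul_comm]; exact Submodule.smul_mem _ q hx

lemma wI_right {w : ℕ} {a x : Cor C X} (ha : a ∈ cor0 C X) (hx : x ∈ wI P w) :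
    x * a ∈ wI P w := by
  unfold wI at hx
  induction hx using Submodule.span_induction with
  | mem x hx =>
    obtain ⟨x, hx, y, hy, rfl⟩ := hx
    apply Submodule.subset_span
    exact ⟨x, hx, y * a, (cor0 C X).mul_mem hy ha, by simp only [mul_assoc]⟩
  | zero => rw [zero_mul]; exact Submodule.zero_mem _
  | add x y _ _ hx hy => rw [add_mul]; exact Submodule.add_mem _ hx hy
  | smul q x _ hx => rw [smul_mul_assoc]; exact Submodule.smul_mem _ q hx

lemma wI_tri (hP : Good H X P) {w w' : ℕ} (hlt : w < w') {x y : Cor C X} (hx : x ∈ wI P w)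
    (hy : y ∈ wI P w') : y * x = 0 := by
  have hxm := wI_le hP hx
  unfold wI at hy
  induction hy using Submodule.span_induction with
  | mem y hy =>
    obtain ⟨a, ha, b, hb, rfl⟩ := hy
    unfold wI at hx
    clear hxm
    induction hx using Submodule.span_induction with
    | mem x hx =>
      obtain ⟨c, hc, d, hd, rfl⟩ := hx
      have h1 : a * P w' * b * (c * P w * d) = a * (P w' * (b * c) * P w) * d := by
        simp only [mul_assoc]
      rw [h1, hP.raise _ ((cor0 C X).mul_mem hb hc) w' w hlt, mul_zero, zero_mul]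
    | zero => rw [mul_zero]
    | add x y _ _ hx hy => rw [mul_add, hx, hy, add_zero]
    | smul q x _ hx => rw [mul_smul_comm, hx, smul_zero]
  | zero => rw [zero_mul]
  | add x y _ _ hx hy => rw [add_mul, hx, hy, add_zero]
  | smul q x _ hx => rw [smul_mul_assoc, hx, smul_zero]

lemma wI_ideals (hP : Good H X P) :
    TriIdeals (A := Cor C X) (cor0 C X).toSubring (fun w : ℕ => (wI P w).toAddSubgroup) where
  le _ _ hx := wI_le hP hx
  left _ _ _ ha hx := wI_left (H := H) ha hx
  right _ _ _ ha hx := wI_right (H := H) ha hx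
  tri _ _ _ _ hlt hx hy := wI_tri hP hlt hx hy

lemma wI_actH (hP : Good H X P) {w : ℕ} {x : Cor C X} (hx : x ∈ wI P w) {m : ℤ} {a : H.A X}
    (ha : a ∈ H.gr X m) (hm : m ≠ w) : actH C X H x a = 0 := by
  unfold wI at hx
  induction hx using Submodule.span_induction with
  | mem x hx =>
    obtain ⟨x, hx, y, hy, rfl⟩ := hx
    rw [map_mul, map_mul, Module.End.mul_apply, Module.End.mul_apply,
      IsCK.actH_eq' hP.ck w m (actH_mem0 hy ha), if_neg hm, map_zero]
  | zero => rw [map_zero, LinearMap.zero_apply]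
  | add x y _ _ hx hy => rw [map_add, LinearMap.add_apply, hx, hy, add_zero]
  | smul q x _ hx =>
    have h3 : q • x = (q • (1 : Cor C X)) * x := by rw [smul_mul_assoc, one_mul]
    rw [h3, map_mul, Module.End.mul_apply, hx, map_zero]

lemma wI_actC (hP : Good H X P) {w : ℕ} {x : Cor C X} (hx : x ∈ wI P w) {l : ℤ} {z : C.A X}
    (hz : z ∈ C.gr X l) (hwl : 2 * l < w ∨ (w = 2 * l ∧ H.cl z = 0)) : actC C X x z = 0 := by
  unfold wI at hx
  induction hx using Submodule.span_induction with
  | mem x hx =>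
    obtain ⟨x, hx, y, hy, rfl⟩ := hx
    have hyz : actC C X y z ∈ C.gr X l := actC_mem (H := H) hy hz
    have h1 : actC C X (P w) (actC C X y z) = 0 := by
      by_cases hl : l < 0
      · rw [zero_of_neg hyz hl, map_zero]
      obtain ⟨l, rfl⟩ := Int.eq_ofNat_of_zero_le (not_lt.1 hl)
      rcases hwl with hwl | ⟨hwl, hcl⟩
      · exact hP.b0 l w _ hyz (by omega)
      · obtain rfl : w = 2 * l := by omega
        apply hP.d l _ hyz
        have h2 : H.cl (C.act (X := X) (Y := X) y z) = H.act (X := X) (Y := X)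
            (H.cl (X := X.prod X) y) (H.cl z) := cl_act H _ _
        rw [hcl, TheoryData.act_map_zero] at h2
        exact h2
    rw [map_mul, map_mul, Module.End.mul_apply, Module.End.mul_apply, h1, map_zero]
  | zero => rw [map_zero, LinearMap.zero_apply]
  | add x y _ _ hx hy => rw [map_add, LinearMap.add_apply, hx, hy, add_zero]
  | smul q x _ hx =>
    have h3 : q • x = (q • (1 : Cor C X)) * x := by rw [smul_mul_assoc, one_mul]
    rw [h3, map_mul, Module.End.mul_apply, hx, map_zero]

end ideals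

/-- The existence of good decompositions of motives. -/
theorem exists_of_good {P : ℕ → Cor C X} (hP : Good H X P) {p : Cor C X} (hp : p ∈ cor0 C X)
    (hpp : p * p = p) (n : ℤ) : ∃ π : ℤ → C.A (X.prod X),
      IsMotiveCK H p n π ∧ MotiveB C n π ∧ MotiveD H n π := by
  obtain ⟨q, h1, h2, h3, h4, -⟩ := exists_orthogonal (wI_ideals hP)
    (Finset.range (2 * X.dim + 1)) p (fun w => p * P w) hp hpp
    (fun w _ => Submodule.subset_span ⟨p, hp, 1, (cor0 C X).one_mem, (mul_one _).symm⟩)
    (by rw [← Finset.mul_sum, IsCK.sum_one hP.ck le_rfl, mul_one])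
  let Q : ℤ → Cor C X := fun w => if 0 ≤ w then q w.toNat else 0
  have hQ : ∀ w : ℕ, Q (w : ℤ) = q w := fun w => by simp [Q]
  have hQneg : ∀ w : ℤ, w < 0 → Q w = 0 := fun w hw => if_neg (not_le.2 hw)
  have hcase : ∀ w : ℤ, (Q w = 0) ∨ ∃ m : ℕ, w = m ∧ Q w = q m := by
    intro w
    by_cases hw : w < 0
    · exact Or.inl (hQneg w hw)
    · obtain ⟨m, rfl⟩ := Int.eq_ofNat_of_zero_le (not_lt.1 hw)
      exact Or.inr ⟨m, rfl, hQ m⟩
  let s : Finset ℤ := (Finset.range (2 * X.dim + 1)).image (fun w : ℕ => (w : ℤ))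
  have hck : IsMotiveCK H p n (fun i => Q (2 * X.dim - (i - 2 * n))) := by
    apply motiveCK_of n s Q
    · intro w
      rcases hcase w with hw | ⟨m, -, hw⟩
      · rw [hw]
        exact (cor0 C X).zero_mem
      · rw [hw]
        exact wI_le hP (h1 m)
    · intro w hw
      rcases hcase w with hw' | ⟨m, rfl, hw'⟩
      · exact hw'
      · rw [hw']
        apply h2
        intro hcon
        exact hw (Finset.mem_image_of_mem _ hcon)
    · intro i j
      rcases hcase i with hi | ⟨m, rfl, hi⟩
      · rw [hi, zero_mul]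
        split_ifs <;> rfl
      · rcases hcase j with hj | ⟨m', rfl, hj⟩
        · rw [hj, mul_zero]
          split_ifs with hij
          · rw [hij, hj]
          · rfl
        · rw [hi, hj, h3]
          by_cases hmm : m = m'
          · rw [if_pos hmm, if_pos (by rw [hmm])]
          · rw [if_neg hmm, if_neg (by exact_mod_cast hmm)]
    · simp only [s]
      rw [Finset.sum_image (fun x _ y _ hxy => by simpa using hxy), ← h4]
      exact Finset.sum_congr rfl fun w _ => hQ w
    · intro w m a ha hm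
      rcases hcase w with hw | ⟨w, rfl, hw⟩
      · rw [hw, map_zero, LinearMap.zero_apply]
      · rw [hw]
        exact wI_actH hP (h1 w) ha hm
  refine ⟨fun i => Q (2 * X.dim - (i - 2 * n)), hck, ?_, ?_⟩
  · intro l i hi z hz
    have h5 : actC C X (Q (2 * X.dim - (i - 2 * n))) z = 0 := by
      rcases hcase (2 * X.dim - (i - 2 * n)) with hw | ⟨w, hw', hw⟩
      · rw [hw, map_zero, LinearMap.zero_apply]
      · rw [hw]
        exact wI_actC hP (h1 w) (l := X.dim - (l - n)) hz (Or.inl (by omega))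
    exact h5
  · intro l z hz hcl
    have h5 : actC C X (Q (2 * X.dim - (2 * l - 2 * n))) z = 0 := by
      rcases hcase (2 * X.dim - (2 * l - 2 * n)) with hw | ⟨w, hw', hw⟩
      · rw [hw, map_zero, LinearMap.zero_apply]
      · rw [hw]
        exact wI_actC hP (h1 w) (l := X.dim - (l - n)) hz (Or.inr ⟨by omega, hcl⟩)
    exact h5

/-- **A system of Chow-Kunneth decompositions with (D) in families implies Murre's conjectures for
all motives.** -/
theorem murreAll_of (hD : ∀ (X : 𝒱.Obj) (π : ℕ → C.A (X.prod X)), 𝒮 X π → FamilyD H X π) (hS : IsSystem H 𝒮) {τ : ℕ → C.A (E.prod E)}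
    (hE : IsPosCurve H 𝒮 E τ) : MurreAll H := by
  intro X p n hp hpp
  obtain ⟨P, hP⟩ := hS.exists_mem X
  have hG : Good H X P := good_of_family hD hS hE hP
  refine ⟨exists_of_good hG hp hpp n, fun π π' h h' l ν => ?_⟩
  exact le_antisymm (motFil_le hG h h' l ν) (motFil_le hG h' h l ν)

end Pool.Agent.W5h86.MU
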