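import Pool.Agent.X308.S.MotDefs

/-!
# Murre's conjectures for Chow motives and (D) in families: definitions
-/

set_option autoImplicit false

open CategoryTheory AlgebraicGeometry

universe u v w

namespace Pool.Agent.W5h86.MU

open Pool.Agent.H914 Pool.Agent.H914.VarClass Pool.Agent.H914.VarClass.Obj Pool.Agent.W492.BB
  Pool.Agent.W550.Corr Pool.Agent.TH133 Pool.Agent.X308.S

variable {k : Type u} [Field k] {𝒱 : VarClass k}

/-- The step `F^ν CH_l(M) = ⊕_{i ≥ 2 l + ν} CH_l(M_i)` of the filtration attached to the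
decomposition `M = ⊕ M_i`, `M_i = (X, π i, n)`; here `CH_l(M_i) = (π i)_* CH_(l - n)(X)` and
`CH_m(X) = CH^(dim X - m)(X)`. -/
noncomputable def motFil (C : TheoryData.{u, v, 0} 𝒱 ℚ) {X : 𝒱.Obj} (n : ℤ)
    (π : ℤ → C.A (X.prod X)) (l ν : ℤ) : Submodule ℚ (C.A X) :=
  ⨆ i : {i : ℤ // 2 * l + ν ≤ i}, (C.gr X (X.dim - (l - n))).map (C.actL (π i))

/-- The dual of a decomposition: the transposes, in the opposite order. -/
noncomputable def dualDec (C : TheoryData.{u, v, 0} 𝒱 ℚ) {X : 𝒱.Obj} (π : ℕ → C.A (X.prod X)) :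
    ℕ → C.A (X.prod X) :=
  fun i => if i ≤ 2 * X.dim then tp C (π (2 * X.dim - i)) else 0

/-- The external product of two decompositions: its part of weight `n` is `∑ π i ⊗ ρ (n - i)`. -/
noncomputable def prodDec (C : TheoryData.{u, v, 0} 𝒱 ℚ) {X Y : 𝒱.Obj} (π : ℕ → C.A (X.prod X))
    (ρ : ℕ → C.A (Y.prod Y)) : ℕ → C.A ((X.prod Y).prod (X.prod Y)) :=
  fun n => ∑ i ∈ Finset.range (n + 1), C.mul (C.up (prodMap (fst X Y) (fst X Y)) (π i))
    (C.up (prodMap (snd X Y) (snd X Y)) (ρ (n - i)))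

section Weil

variable {C : TheoryData.{u, v, 0} 𝒱 ℚ} {K : Type w} [Field K] (H : WeilTheoryData.{u, v, w} C K)

/-- Murre's conjectures for the motive `M = (X, p, n)`: it has a Chow-Kunneth decomposition
satisfying (B) and (D), and all its Chow-Kunneth decompositions induce the same filtrations. -/
structure MurreFor {X : 𝒱.Obj} (p : C.A (X.prod X)) (n : ℤ) : Prop where
  exists_ck : ∃ π : ℤ → C.A (X.prod X), IsMotiveCK H p n π ∧ MotiveB C n π ∧ MotiveD H n π
  indep : ∀ π π' : ℤ → C.A (X.prod X), IsMotiveCK H p n π → IsMotiveCK H p n π' →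
    ∀ l ν : ℤ, motFil C n π l ν = motFil C n π' l ν

/-- Murre's conjectures (A), (B), (C), (D) for all motives `(X, p, n)`, `X` in the class `𝒱`. -/
def MurreAll : Prop :=
  ∀ (X : 𝒱.Obj) (p : C.A (X.prod X)) (n : ℤ), C.Deg X.dim p → C.comp p p = p → MurreFor H p n

/-- Murre's conjecture (A) for the varieties of the class `𝒱`. -/
def VarietyA : Prop := ∀ X : 𝒱.Obj, ∃ π : ℕ → C.A (X.prod X), IsCK H X π

/-- Murre's conjecture (D) for families of cycles on `X` parametrized by `B`, with respect to the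
Chow-Kunneth decomposition `π` of `X`: if the family of cycles `z ∈ CH^i(B × X)`, seen as a
correspondence from `B` to `X`, is homologically trivial on the fibres over the points of `B`
(that is, `z_*` kills the top cohomology group `H^(2 dim B)(B)`, which is spanned by the class of
a point), then `π_(2i) ∘ z = 0` in `CH^i(B × X)`. -/
def FamilyD (B : 𝒱.Obj) {X : 𝒱.Obj} (π : ℕ → C.A (X.prod X)) : Prop :=
  ∀ (i : ℕ) (z : C.A (B.prod X)), C.Deg i z → Kills H z (2 * B.dim) → C.comp z (π (2 * i)) = 0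

/-- A system of Chow-Kunneth decompositions: `𝒮 X π` says that `π` is one of the chosen
Chow-Kunneth decompositions of `X`; each variety has a chosen one, and the external products and
the duals of chosen ones are chosen. -/
structure IsSystem (𝒮 : ∀ X : 𝒱.Obj, (ℕ → C.A (X.prod X)) → Prop) : Prop where
  exists_mem : ∀ X : 𝒱.Obj, ∃ π : ℕ → C.A (X.prod X), 𝒮 X π
  ck : ∀ (X : 𝒱.Obj) (π : ℕ → C.A (X.prod X)), 𝒮 X π → IsCK H X π
  prod : ∀ (X Y : 𝒱.Obj) (π : ℕ → C.A (X.prod X)) (ρ : ℕ → C.A (Y.prod Y)), 𝒮 X π → 𝒮 Y ρ →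
    𝒮 (X.prod Y) (prodDec C π ρ)
  dual : ∀ (X : 𝒱.Obj) (π : ℕ → C.A (X.prod X)), 𝒮 X π → 𝒮 X (dualDec C π)

/-- The class `𝒱` contains a curve `E` of positive genus: the self-intersection number of the
diagonal of `E × E`, which is `2 - 2g` for a curve of genus `g`, is not `2`. -/
def HasPositiveGenusCurve (C : TheoryData.{u, v, 0} 𝒱 ℚ) : Prop :=
  ∃ (E : 𝒱.Obj) (q : ℚ), E.dim = 1 ∧ q ≠ 2 ∧ HasDegree C (C.mul (dg C E) (dg C E)) q

end Weil

end Pool.Agent.W5h86.MU
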