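import Pool.Agent.W5h86.MU.Conv

/-!
# Murre's conjectures for all motives imply (D) in families
-/

set_option autoImplicit false

open CategoryTheory AlgebraicGeometry

universe u v w

namespace Pool.Agent.W5h86.MU

open Pool.Agent.H914 Pool.Agent.H914.VarClass Pool.Agent.H914.VarClass.Obj Pool.Agent.W492.BB
  Pool.Agent.W550.Corr Pool.Agent.TH133 Pool.Agent.X308.S Pool.Agent.Y148.BB

set_option linter.unusedSectionVars false

variable {k : Type u} [Field k] {𝒱 : VarClass k} {C : TheoryData.{u, v, 0} 𝒱 ℚ}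
  [hC : IsChowProj C] {K : Type w} [Field K]
  {H : WeilTheoryData.{u, v, w} C K} [hH : IsWeilProj H] {B E X Y Z W : 𝒱.Obj}

include hC hH

/-- A Chow-Kunneth decomposition of the motive of `X` gives one of the variety `X`. -/
theorem isCK_of_motive {π : ℤ → Cor C X} (h : IsMotiveCK H (1 : Cor C X) 0 π) :
    ∃ P : ℕ → Cor C X, IsCK H X P := by
  let R : ℕ → Cor C X := fun m => π (2 * X.dim - m)
  have hRR : ∀ i j, R i * R j = if i = j then R i else 0 := by
    intro i j
    by_cases hij : i = j
    · subst hij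
      rw [if_pos rfl]
      exact mck_idem h _
    · rw [if_neg hij]
      exact mck_orth h (by omega)
  have hRact : ∀ (i : ℕ) (m : ℤ) (a : H.A X), a ∈ H.gr X m →
      actH C X H (R i) a = if m = i then a else 0 := by
    intro i m a ha
    split_ifs with hm
    · have h1 := h.act_self (2 * X.dim - i) a (by
        have : (2 * (X.dim : ℤ) - ((2 * X.dim - i) - 2 * 0)) = m := by omega
        rw [this]
        exact ha)
      have h2 : actH C X H (R i) a = actH C X H 1 a := h1
      rw [h2, map_one]
      rfl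
    · exact mck_act h _ m a (by omega) ha
  let s := (Finset.range (2 * X.dim + 1)).filter (fun m => 1 ≤ m)
  let S : Cor C X := ∑ m ∈ s, R m
  have hSR : ∀ i, S * R i = if i ∈ s then R i else 0 := by
    intro i
    simp only [S]
    rw [Finset.sum_mul]
    split_ifs with hi
    · rw [Finset.sum_eq_single_of_mem i hi (fun j _ hj => by rw [hRR, if_neg hj]), hRR, if_pos rfl]
    · exact Finset.sum_eq_zero fun j hj => by
        rw [hRR, if_neg (ne_of_mem_of_not_mem hj hi)]
  have hRS : ∀ i, R i * S = if i ∈ s then R i else 0 := by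
    intro i
    simp only [S]
    rw [Finset.mul_sum]
    split_ifs with hi
    · rw [Finset.sum_eq_single_of_mem i hi (fun j _ hj => by rw [hRR, if_neg (Ne.symm hj)]), hRR,
        if_pos rfl]
    · exact Finset.sum_eq_zero fun j hj => by
        rw [hRR, if_neg (Ne.symm (ne_of_mem_of_not_mem hj hi))]
  have hSS : S * S = S := by
    conv_lhs => rw [show S * S = ∑ m ∈ s, S * R m by simp only [S]; rw [Finset.mul_sum]]
    exact Finset.sum_congr rfl fun m hm => by rw [hSR, if_pos hm]
  have hSact : ∀ (m : ℤ) (a : H.A X), a ∈ H.gr X m →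
      actH C X H S a = if 1 ≤ m ∧ m ≤ 2 * X.dim then a else 0 := by
    intro m a ha
    simp only [S]
    rw [map_sum, LinearMap.sum_apply]
    split_ifs with hm
    · obtain ⟨m, rfl⟩ := Int.eq_ofNat_of_zero_le (show 0 ≤ m by omega)
      rw [Finset.sum_eq_single m]
      · rw [hRact m m a ha, if_pos rfl]
      · intro j _ hj
        rw [hRact j m a ha, if_neg (by omega)]
      · intro hcon
        exfalso
        apply hcon
        simp only [s, Finset.mem_filter, Finset.mem_range]
        omega
    · apply Finset.sum_eq_zero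
      intro j hj
      simp only [s, Finset.mem_filter, Finset.mem_range] at hj
      rw [hRact j m a ha, if_neg (by omega)]
  have hRm : ∀ i, R i ∈ cor0 C X := fun i => h.deg _
  have hSm : S ∈ cor0 C X := (cor0 C X).sum_mem fun m _ => hRm m
  have h0s : (0 : ℕ) ∉ s := by simp [s]
  let P : ℕ → Cor C X := fun i => if i = 0 then 1 - S else if i ∈ s then R i else 0
  have hP0 : P 0 = 1 - S := if_pos rfl
  have hPs : ∀ i ∈ s, P i = R i := by
    intro i hi
    have hi0 : i ≠ 0 := fun h0 => h0s (h0 ▸ hi)
    simp only [P]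
    rw [if_neg hi0, if_pos hi]
  have hPn : ∀ i, i ≠ 0 → i ∉ s → P i = 0 := by
    intro i hi hi'
    simp only [P]
    rw [if_neg hi, if_neg hi']
  refine ⟨P, isCK_of (H := H) ?_ ?_ ?_ ?_ ?_⟩
  · intro i
    simp only [P]
    split_ifs
    · exact (cor0 C X).sub_mem (cor0 C X).one_mem hSm
    · exact hRm i
    · exact (cor0 C X).zero_mem
  · intro i hi
    apply hPn i (by omega)
    simp only [s, Finset.mem_filter, Finset.mem_range]
    omega
  · intro i j
    by_cases hi0 : i = 0
    · subst hi0
      by_cases hj0 : j = 0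
      · subst hj0
        rw [if_pos rfl, hP0, mul_sub, mul_one, sub_mul, one_mul, hSS, sub_self, sub_zero]
      · rw [if_neg (Ne.symm hj0)]
        by_cases hj : j ∈ s
        · rw [hP0, hPs j hj, sub_mul, one_mul, hSR, if_pos hj, sub_self]
        · rw [hPn j hj0 hj, mul_zero]
    · by_cases hi : i ∈ s
      · by_cases hj0 : j = 0
        · subst hj0
          rw [if_neg hi0, hP0, hPs i hi, mul_sub, mul_one, hRS, if_pos hi, sub_self]
        · by_cases hj : j ∈ s
          · rw [hPs i hi, hPs j hj, hRR]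
          · rw [hPn j hj0 hj, mul_zero, if_neg (ne_of_mem_of_not_mem hi hj)]
      · rw [hPn i hi0 hi, zero_mul]
        split_ifs <;> rfl
  · have h1 : Finset.range (2 * X.dim + 1) = insert 0 s := by
      ext m
      simp only [s, Finset.mem_insert, Finset.mem_range, Finset.mem_filter]
      omega
    rw [h1, Finset.sum_insert h0s, hP0, Finset.sum_congr rfl hPs]
    change 1 - S + S = 1
    abel
  · intro i m a ha
    by_cases hm0 : m < 0
    · rw [hgr_neg ha hm0, map_zero]
      split_ifs <;> rfl
    by_cases hm1 : 2 * (X.dim : ℤ) < m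
    · rw [hgr_top ha hm1, map_zero]
      split_ifs <;> rfl
    by_cases hi0 : i = 0
    · subst hi0
      rw [hP0, map_sub, map_one, LinearMap.sub_apply, hSact m a ha]
      by_cases hm : m = 0
      · rw [if_neg (by omega), if_pos (by simpa using hm), sub_zero]
        rfl
      · rw [if_pos (by omega), if_neg (by simpa using hm)]
        exact sub_self a
    · by_cases hi : i ∈ s
      · rw [hPs i hi, hRact i m a ha]
      · rw [hPn i hi0 hi, map_zero, LinearMap.zero_apply, if_neg]
        simp only [s, Finset.mem_filter, Finset.mem_range] at hi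
        omega

omit hH in
/-- The extension by zero of a Chow-Kunneth decomposition to integral weights. -/
noncomputable def extZ (P : ℕ → Cor C X) (w : ℤ) : Cor C X := if 0 ≤ w then P w.toNat else 0

omit hH in
lemma extZ_nat (P : ℕ → Cor C X) (w : ℕ) : extZ P (w : ℤ) = P w := by simp [extZ]

omit hH in
lemma extZ_neg (P : ℕ → Cor C X) {w : ℤ} (hw : w < 0) : extZ P w = 0 := if_neg (not_le.2 hw)

omit hH in
lemma extZ_cases (P : ℕ → Cor C X) (w : ℤ) :
    extZ P w = 0 ∨ ∃ m : ℕ, w = m ∧ extZ P w = P m := by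
  by_cases hw : w < 0
  · exact Or.inl (extZ_neg P hw)
  · obtain ⟨m, rfl⟩ := Int.eq_ofNat_of_zero_le (not_lt.1 hw)
    exact Or.inr ⟨m, rfl, extZ_nat P m⟩

/-- A Chow-Kunneth decomposition of the variety `X` gives one of its motive. -/
theorem motive_of_isCK {P : ℕ → Cor C X} (hP : IsCK H X P) :
    IsMotiveCK H (1 : Cor C X) 0 (fun i => extZ P (2 * X.dim - (i - 2 * 0))) := by
  apply motiveCK_of 0 ((Finset.range (2 * X.dim + 1)).image (fun w : ℕ => (w : ℤ))) (extZ P)
  · intro w
    rcases extZ_cases P w with hw | ⟨m, -, hw⟩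
    · rw [hw]
      exact (cor0 C X).zero_mem
    · rw [hw]
      exact hP.deg m
  · intro w hw
    rcases extZ_cases P w with hw' | ⟨m, rfl, hw'⟩
    · exact hw'
    · rw [hw']
      apply hP.out
      by_contra hcon
      exact hw (Finset.mem_image_of_mem _ (by rw [Finset.mem_range]; omega))
  · intro i j
    rcases extZ_cases P i with hi | ⟨m, rfl, hi⟩
    · rw [hi, zero_mul]
      split_ifs <;> rfl
    · rcases extZ_cases P j with hj | ⟨m', rfl, hj⟩
      · rw [hj, mul_zero]
        split_ifs with hij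
        · rw [hij, hj]
        · rfl
      · rw [hi, hj, IsCK.mul_eq hP]
        by_cases hmm : m = m'
        · rw [if_pos hmm, if_pos (by rw [hmm])]
        · rw [if_neg hmm, if_neg (by exact_mod_cast hmm)]
  · rw [Finset.sum_image (fun x _ y _ hxy => by simpa using hxy), ← IsCK.sum_one hP le_rfl]
    exact Finset.sum_congr rfl fun w _ => extZ_nat P w
  · intro w m a ha hm
    rcases extZ_cases P w with hw | ⟨w, rfl, hw⟩
    · rw [hw, map_zero, LinearMap.zero_apply]
    · rw [hw, IsCK.actH_eq' hP w m ha, if_neg hm]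

/-- A class in a step of the filtration is killed by the summands of smaller index. -/
lemma killed_of_motFil {p : Cor C X} {n : ℤ} {π : ℤ → Cor C X} (h : IsMotiveCK H p n π) {l ν : ℤ}
    {x : C.A X} (hx : x ∈ motFil C (X := X) n π l ν) {i : ℤ} (hi : i < 2 * l + ν) :
    actC C X (π i) x = 0 := by
  have h1 : motFil C (X := X) n π l ν ≤ LinearMap.ker (actC C X (π i)) := by
    unfold motFil
    refine iSup_le fun ⟨j, hj⟩ => ?_
    rintro _ ⟨y, hy, rfl⟩
    rw [LinearMap.mem_ker]
    have h2 : actC C X (π i) (actC C X (π j) y) = actC C X (π i * π j) y := by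
      rw [map_mul]
      rfl
    have h3 : π i * π j = 0 := mck_orth h (by omega)
    rw [h3, map_zero, LinearMap.zero_apply] at h2
    exact h2
  exact h1 hx

/-- A class of the motive which is killed by the summands of smaller index lies in the step of
the filtration. -/
lemma motFil_of_killed {n : ℤ} {π : ℤ → Cor C X} (h : IsMotiveCK H (1 : Cor C X) n π)
    {l ν : ℤ} {x : C.A X} (hx : x ∈ C.gr X (X.dim - (l - n)))
    (hk : ∀ i, i < 2 * l + ν → actC C X (π i) x = 0) : x ∈ motFil C (X := X) n π l ν := by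
  obtain ⟨s, hs, hsum⟩ := mck_sum h
  have h1 : x = ∑ j ∈ s, actC C X (π j) x := by
    rw [← LinearMap.sum_apply, ← map_sum, hsum, map_one]
    rfl
  rw [h1]
  apply Submodule.sum_mem
  intro j _
  by_cases hj : j < 2 * l + ν
  · rw [hk j hj]
    exact Submodule.zero_mem _
  · unfold motFil
    apply Submodule.mem_iSup_of_mem (⟨j, not_lt.1 hj⟩ : {i : ℤ // 2 * l + ν ≤ i})
    exact ⟨x, hx, rfl⟩

section fwd

variable (hM : MurreAll H)

include hM

theorem varietyA_of_murreAll : VarietyA H := by
  intro X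
  obtain ⟨⟨π, hπ, -, -⟩, -⟩ := hM X (dg C X) 0 (dg_mem C X) (comp_dg C _)
  exact isCK_of_motive (π := π) hπ

/-- (B) for all Chow-Kunneth decompositions of varieties. -/
theorem B0_of_murreAll {P : ℕ → Cor C X} (hP : IsCK H X P) {i j : ℕ} {x : C.A X}
    (hx : x ∈ C.gr X i) (hij : 2 * i < j) : actC C X (P j) x = 0 := by
  obtain ⟨⟨π, hπ, hB, -⟩, hind⟩ := hM X (dg C X) 0 (dg_mem C X) (comp_dg C _)
  have h1 := hind π _ hπ (motive_of_isCK hP) (X.dim - i) 0
  have h2 : x ∈ motFil C (X := X) 0 π (X.dim - i) 0 := by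
    have hx' : x ∈ C.gr X (X.dim - (((X.dim : ℤ) - i) - 0)) := by
      have e1 : ((X.dim : ℤ) - (((X.dim : ℤ) - i) - 0)) = i := by ring
      rw [e1]
      exact hx
    apply motFil_of_killed (π := π) hπ hx'
    intro a ha
    exact hB (X.dim - i) a (by omega) x hx'
  rw [h1] at h2
  have h3 := killed_of_motFil (motive_of_isCK hP) h2 (i := 2 * X.dim - j) (by omega)
  have e1 : (2 * (X.dim : ℤ) - ((2 * X.dim - j) - 2 * 0)) = (j : ℤ) := by ring
  rw [e1, extZ_nat] at h3
  exact h3

/-- (D) for all Chow-Kunneth decompositions of varieties. -/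
theorem D_of_murreAll {P : ℕ → Cor C X} (hP : IsCK H X P) {i : ℕ} {x : C.A X}
    (hx : x ∈ C.gr X i) (hcl : H.cl x = 0) : actC C X (P (2 * i)) x = 0 := by
  obtain ⟨⟨π, hπ, hB, hD⟩, hind⟩ := hM X (dg C X) 0 (dg_mem C X) (comp_dg C _)
  have h1 := hind π _ hπ (motive_of_isCK hP) (X.dim - i) 1
  have h2 : x ∈ motFil C (X := X) 0 π (X.dim - i) 1 := by
    have hx' : x ∈ C.gr X (X.dim - (((X.dim : ℤ) - i) - 0)) := by
      have e1 : ((X.dim : ℤ) - (((X.dim : ℤ) - i) - 0)) = i := by ring
      rw [e1]
      exact hx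
    apply motFil_of_killed (π := π) hπ hx'
    intro a ha
    rcases lt_or_eq_of_le (show a ≤ 2 * ((X.dim : ℤ) - i) by omega) with h3 | h3
    · exact hB (X.dim - i) a h3 x hx'
    · rw [h3]
      exact hD (X.dim - i) x hx' hcl
  rw [h1] at h2
  have h3 := killed_of_motFil (motive_of_isCK hP) h2 (i := 2 * X.dim - (2 * i : ℕ)) (by
    push_cast; omega)
  have e1 : (2 * (X.dim : ℤ) - ((2 * X.dim - (2 * i : ℕ)) - 2 * 0)) = ((2 * i : ℕ) : ℤ) := by ring
  rw [e1, extZ_nat] at h3
  exact h3

end fwd

end Pool.Agent.W5h86.MU
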