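import Pool.Agent.W5h86.MU.Odd

/-!
# Weights of correspondences under (D) in families
-/

set_option autoImplicit false

open CategoryTheory AlgebraicGeometry

universe u v w

namespace Pool.Agent.W5h86.MU

open Pool.Agent.H914 Pool.Agent.H914.VarClass Pool.Agent.H914.VarClass.Obj Pool.Agent.W492.BB
  Pool.Agent.W550.Corr Pool.Agent.TH133 Pool.Agent.X308.S Pool.Agent.Y148.BB

set_option linter.unusedSectionVars false

variable {k : Type u} [Field k] {𝒱 : VarClass k} {C : TheoryData.{u, v, 0} 𝒱 ℚ}
  [hC : IsChowProj C] {K : Type w} [Field K]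
  {H : WeilTheoryData.{u, v, w} C K} [hH : IsWeilProj H] {B E X Y Z W : 𝒱.Obj}
  {𝒮 : ∀ X : 𝒱.Obj, (ℕ → C.A (X.prod X)) → Prop}

include hC hH

/-- The consequences of (D) in families for a variety `X` with a Chow-Kunneth decomposition `P`
which are used: no self-correspondence raises the weights, homologically trivial ones strictly
lower them, and `P` satisfies (B) and (D). -/
structure Good (H : WeilTheoryData.{u, v, w} C K) (X : 𝒱.Obj) (P : ℕ → Cor C X) : Prop where
  ck : IsCK H X P
  raise : ∀ (γ : Cor C X), γ ∈ cor0 C X → ∀ a b : ℕ, b < a → P a * γ * P b = 0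
  diag : ∀ (γ : Cor C X), γ ∈ cor0 C X → H.cl (X := X.prod X) γ = 0 → ∀ a : ℕ, P a * γ * P a = 0
  b0 : ∀ (i j : ℕ) (x : C.A X), x ∈ C.gr X i → 2 * i < j → actC C X (P j) x = 0
  d : ∀ (i : ℕ) (x : C.A X), x ∈ C.gr X i → H.cl x = 0 → actC C X (P (2 * i)) x = 0

theorem good_of_family (hD : ∀ (X : 𝒱.Obj) (π : ℕ → C.A (X.prod X)), 𝒮 X π → FamilyD H X π) (hS : IsSystem H 𝒮) {τ : ℕ → C.A (E.prod E)}
    (hE : IsPosCurve H 𝒮 E τ) {P : ℕ → Cor C X} (h : 𝒮 X P) : Good H X P where
  ck := hS.ck X P h
  raise := by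
    intro γ hγ a b hab
    by_cases hb : b ≤ 2 * X.dim
    · have h2 : C.act (prodCK C (dualCK C P) P (2 * X.dim - b + a)) γ = 0 :=
        B0_of_family hD hS hE (hS.prod X X _ _ (hS.dual X _ h) h) hγ (by omega)
      have h1 := comp_zero_of_prod (H := H) (hS.ck X P h) (hS.ck X P h) hb h2
      rw [mul_assoc]
      exact h1
    · have h1 : P b = 0 := (hS.ck X P h).out b (by omega)
      rw [h1, mul_zero]
  diag := by
    intro γ hγ hcl a
    by_cases ha : a ≤ 2 * X.dim
    · have h2 : C.act (prodCK C (dualCK C P) P (2 * X.dim - a + a)) γ = 0 := by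
        have e1 : 2 * X.dim - a + a = 2 * X.dim := by omega
        rw [e1]
        exact D_of_family hD (hS.prod X X _ _ (hS.dual X _ h) h) hγ hcl
      have h1 := comp_zero_of_prod (H := H) (hS.ck X P h) (hS.ck X P h) ha h2
      rw [mul_assoc]
      exact h1
    · have h1 : P a = 0 := (hS.ck X P h).out a (by omega)
      rw [h1, mul_zero]
  b0 := fun i j x hx hij => B0_of_family hD hS hE h hx hij
  d := fun i x hx hcl => D_of_family hD h hx hcl

namespace Good

variable {P : ℕ → Cor C X}

lemma mem (hP : Good H X P) (i : ℕ) : P i ∈ cor0 C X := hP.ck.deg i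

lemma mul_eq (hP : Good H X P) (i j : ℕ) : P i * P j = if i = j then P i else 0 :=
  IsCK.mul_eq hP.ck i j

/-- There are no phantoms. -/
theorem no_phantom (hP : Good H X P) {u : Cor C X} (hu : u ∈ cor0 C X) (huu : u * u = u)
    (hcl : H.cl (X := X.prod X) u = 0) : u = 0 := by
  have key : ∀ a, u * P a = 0 := by
    intro a
    induction a using Nat.strong_induction_on with
    | _ a ih =>
      have h1 : u * P a = ∑ b ∈ Finset.range (2 * X.dim + 1), u * (P b * u * P a) := by
        have h2 : u * P a = u * 1 * (u * P a) := by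
          rw [mul_one, ← mul_assoc, huu]
        rw [← IsCK.sum_one hP.ck le_rfl, Finset.mul_sum, Finset.sum_mul] at h2
        rw [h2]
        apply Finset.sum_congr rfl
        intro b _
        simp only [mul_assoc]
      rw [h1]
      apply Finset.sum_eq_zero
      intro b _
      rcases lt_trichotomy b a with hb | hb | hb
      · rw [← mul_assoc, ← mul_assoc, ih b hb, zero_mul, zero_mul]
      · subst hb
        rw [hP.diag u hu hcl, mul_zero]
      · rw [hP.raise u hu b a hb, mul_zero]
  rw [← mul_one u, ← IsCK.sum_one hP.ck le_rfl, Finset.mul_sum]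
  exact Finset.sum_eq_zero fun a _ => key a

/-- The truncation `⊕_{b ≤ w} h^b(X)`. -/
noncomputable def trunc (C : TheoryData.{u, v, 0} 𝒱 ℚ) {X : 𝒱.Obj} (P : ℕ → Cor C X) (w : ℤ) :
    Cor C X := ∑ b ∈ (Finset.range (2 * X.dim + 1)).filter (fun b : ℕ => (b : ℤ) ≤ w), P b

lemma trunc_mem (hP : Good H X P) (w : ℤ) : trunc C P w ∈ cor0 C X :=
  (cor0 C X).sum_mem fun b _ => hP.mem b

lemma one_sub_trunc (hP : Good H X P) (w : ℤ) : 1 - trunc C P w =
    ∑ b ∈ (Finset.range (2 * X.dim + 1)).filter (fun b : ℕ => ¬ (b : ℤ) ≤ w), P b := by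
  rw [sub_eq_iff_eq_add', ← IsCK.sum_one hP.ck le_rfl, trunc]
  exact (Finset.sum_filter_add_sum_filter_not (Finset.range (2 * X.dim + 1))
    (fun b : ℕ => (b : ℤ) ≤ w) P).symm

/-- Correspondences preserve the truncation. -/
lemma trunc_mul (hP : Good H X P) {r : Cor C X} (hr : r ∈ cor0 C X) (w : ℤ) :
    r * trunc C P w = trunc C P w * r * trunc C P w := by
  have h1 : (1 - trunc C P w) * r * trunc C P w = 0 := by
    rw [hP.one_sub_trunc, trunc, Finset.sum_mul, Finset.sum_mul_sum]
    apply Finset.sum_eq_zero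
    intro a ha
    apply Finset.sum_eq_zero
    intro b hb
    rw [Finset.mem_filter] at ha hb
    exact hP.raise r hr a b (by have := ha.2; have := hb.2; omega)
  rw [sub_mul, one_mul, sub_mul, sub_eq_zero] at h1
  exact h1

lemma trunc_idem (hP : Good H X P) (w : ℤ) : trunc C P w * trunc C P w = trunc C P w := by
  have h1 := hP.trunc_mul (cor0 C X).one_mem w
  rw [one_mul, mul_one] at h1
  exact h1.symm

lemma actH_trunc (hP : Good H X P) (w : ℤ) {m : ℤ} {a : H.A X} (ha : a ∈ H.gr X m)
    (hm : w < m) : actH C X H (trunc C P w) a = 0 := by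
  rw [trunc, map_sum, LinearMap.sum_apply]
  apply Finset.sum_eq_zero
  intro b hb
  rw [Finset.mem_filter] at hb
  rw [IsCK.actH_eq' hP.ck b m ha, if_neg (by have := hb.2; omega)]

lemma actH_one_sub_trunc (hP : Good H X P) (w : ℤ) {m : ℤ} {a : H.A X} (ha : a ∈ H.gr X m)
    (hm : m ≤ w) : actH C X H (1 - trunc C P w) a = 0 := by
  rw [hP.one_sub_trunc, map_sum, LinearMap.sum_apply]
  apply Finset.sum_eq_zero
  intro b hb
  rw [Finset.mem_filter] at hb
  rw [IsCK.actH_eq' hP.ck b m ha, if_neg (by have := hb.2; omega)]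

/-- Idempotents of pure weights `w < w'` do not raise the weights. -/
theorem mul_eq_zero_of_lt (hP : Good H X P) {r r' : Cor C X} (hr : r ∈ cor0 C X)
    (hr' : r' ∈ cor0 C X) (hrr : r * r = r) (hrr' : r' * r' = r') {w w' : ℤ} (hw : w < w')
    (hact : ∀ (m : ℤ) (a : H.A X), m ≠ w → a ∈ H.gr X m → actH C X H r a = 0)
    (hact' : ∀ (m : ℤ) (a : H.A X), m ≠ w' → a ∈ H.gr X m → actH C X H r' a = 0) :
    r' * r = 0 := by
  set e := trunc C P w with he
  have hem : e ∈ cor0 C X := hP.trunc_mem w
  have hee : e * e = e := hP.trunc_idem w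
  have h1 : r' * e = 0 := by
    apply hP.no_phantom ((cor0 C X).mul_mem hr' hem)
    · have h2 : r' * e = e * r' * e := hP.trunc_mul hr' w
      calc r' * e * (r' * e) = r' * (e * r' * e) := by simp only [mul_assoc]
        _ = r' * (r' * e) := by rw [← h2]
        _ = r' * e := by rw [← mul_assoc, hrr']
    · apply actH_ext
      intro m x hx
      rw [map_mul, Module.End.mul_apply]
      by_cases hm : m = w'
      · rw [hP.actH_trunc w hx (by omega), map_zero]
      · exact hact' m _ hm (actH_mem0 hem hx)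
  have h2 : (1 - e) * r = 0 := by
    have hfm : 1 - e ∈ cor0 C X := (cor0 C X).sub_mem (cor0 C X).one_mem hem
    apply hP.no_phantom ((cor0 C X).mul_mem hfm hr)
    · have h3 : (1 - e) * r * e = 0 := by
        have h4 : r * e = e * r * e := hP.trunc_mul hr w
        rw [sub_mul, one_mul, sub_mul, ← h4, sub_self]
      have h5 : (1 - e) * r * (1 - e) = (1 - e) * r := by
        rw [mul_sub, mul_one, h3, sub_zero]
      calc (1 - e) * r * ((1 - e) * r) = (1 - e) * r * (1 - e) * r := by simp only [mul_assoc]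
        _ = (1 - e) * r * r := by rw [h5]
        _ = (1 - e) * r := by rw [mul_assoc, hrr]
    · apply actH_ext
      intro m x hx
      rw [map_mul, Module.End.mul_apply]
      by_cases hm : m = w
      · exact hP.actH_one_sub_trunc w (actH_mem0 hr hx) (by omega)
      · rw [hact m x hm hx, map_zero]
  calc r' * r = r' * e * r + r' * ((1 - e) * r) := by
        rw [sub_mul, one_mul, mul_sub, ← mul_assoc r' e r, add_sub_cancel]
    _ = 0 := by rw [h1, h2, zero_mul, mul_zero, add_zero]

end Good

end Pool.Agent.W5h86.MU
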