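import Pool.Agent.W5h86.MU.Back

/-!
# (D) in families implies the first half of (B)
-/

set_option autoImplicit false

open CategoryTheory AlgebraicGeometry

universe u v w

namespace Pool.Agent.W5h86.MU

open Pool.Agent.H914 Pool.Agent.H914.VarClass Pool.Agent.H914.VarClass.Obj Pool.Agent.W492.BB
  Pool.Agent.W550.Corr Pool.Agent.TH133 Pool.Agent.X308.S Pool.Agent.Y148.BB

set_option linter.unusedSectionVars false

variable {k : Type u} [Field k] {𝒱 : VarClass k} {C : TheoryData.{u, v, 0} 𝒱 ℚ}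
  [hC : IsChowProj C] {K : Type w} [Field K]
  {H : WeilTheoryData.{u, v, w} C K} [hH : IsWeilProj H] {B E X Y Z W : 𝒱.Obj}
  {𝒮 : ∀ X : 𝒱.Obj, (ℕ → C.A (X.prod X)) → Prop}

include hC hH

/-- A correspondence vanishes if its external product with a correspondence of non-zero degree
vanishes. -/
lemma zero_of_tens {Γ : C.A (X.prod Y)} {δ : C.A (E.prod E)} {q : ℚ} (hq : q ≠ 0)
    (hδ : HasDegree C (C.mul δ (dg C E)) q) (h : tens C Γ δ = 0) : Γ = 0 := by
  rw [tens_eq C] at h
  have h1 : C.ext Γ δ = 0 := by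
    have h2 : C.pull (mid X Y E E) (C.pull (mid X E Y E) (C.ext Γ δ)) = C.ext Γ δ := by
      rw [← C.pull_comp, mid_mid, C.pull_id]
    rw [← h2, h, map_zero]
  have h3 : C.ext δ Γ = 0 := by
    rw [← tp_ext, h1, tp_zero]
  have h4 : C.act (C.ext δ Γ) (dg C E) = q • Γ := act_ext' hδ
  rw [h3, TheoryData.act_zero] at h4
  rcases smul_eq_zero.1 h4.symm with h5 | h5
  · exact absurd h5 hq
  · exact h5

/-- `E` is a curve with a chosen Chow-Kunneth decomposition `τ` such that the intersection number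
of `τ 1` with the diagonal is not zero. -/
structure IsPosCurve (H : WeilTheoryData.{u, v, w} C K)
    (𝒮 : ∀ X : 𝒱.Obj, (ℕ → C.A (X.prod X)) → Prop) (E : 𝒱.Obj) (τ : ℕ → C.A (E.prod E)) :
    Prop where
  dim : E.dim = 1
  mem : 𝒮 E τ
  ck : IsCK H E τ
  deg : ∃ q : ℚ, q ≠ 0 ∧ HasDegree C (C.mul (τ 1) (dg C E)) q

/-- (D) in families implies the vanishing in (B) for weights of odd excess. -/
lemma odd_of_family (hD : ∀ (X : 𝒱.Obj) (π : ℕ → C.A (X.prod X)), 𝒮 X π → FamilyD H X π) (hS : IsSystem H 𝒮) {τ : ℕ → C.A (E.prod E)}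
    (hE : IsPosCurve H 𝒮 E τ) {π : ℕ → C.A (X.prod X)} (h' : 𝒮 X π) {i s : ℕ} {x : C.A X}
    (hx : x ∈ C.gr X i) : C.act (π (2 * (i + s) + 1)) x = 0 := by
  have h := hS.ck X π h'
  by_cases hd : 2 * X.dim < 2 * (i + s) + 1
  · rw [h.out _ hd, TheoryData.act_zero]
  obtain ⟨u, hu, v, hv, huv⟩ := exists_dual_pair (C := C) (H := H) X (l := s) (by omega)
  obtain ⟨q, hq, hdeg⟩ := hE.deg
  set j := 2 * (i + s) + 1 with hj
  set y := C.act (π j) x with hy
  have hym : y ∈ C.gr X i := act_mem0 C (h.deg j) hx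
  have hyj : C.act (π j) y = y := by rw [hy, ← C.act_comp, h.idem]
  have huy : C.ext u y ∈ C.gr (X.prod X) ((i + s : ℕ) : ℤ) := by
    have := ext_mem' (C := C) hu hym
    rw [add_comm] at this
    exact_mod_cast this
  set z : C.A ((X.prod E).prod (X.prod E)) := tens C (C.ext u y) (τ 1) with hz
  have hzm : z ∈ C.gr ((X.prod E).prod (X.prod E)) ((i + s + 1 : ℕ) : ℤ) := by
    have h1 := tens_mem C huy (hE.ck.deg 1)
    rw [hE.dim] at h1
    exact_mod_cast h1
  have hkill : Kills H z (2 * (X.prod E).dim) := by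
    intro a ha
    have h1 := H.kunneth X E _ ha
    clear ha
    induction h1 using Submodule.span_induction with
    | mem c hc =>
      obtain ⟨l, a, b, ha, hb, rfl⟩ := hc
      have e0 : H.pull (fst X E) a * H.pull (snd X E) b = H.ext a b := rfl
      rw [e0, hz, actH_tens_ext]
      rw [dim_prod, hE.dim] at hb
      by_cases hl : l = 2 * X.dim
      · rw [hE.ck.act_ne 1 _ b (by push_cast; omega) hb, TheoryData.ext_zero_right]
      · by_cases hl' : 2 * (X.dim : ℤ) < l
        · rw [hgr_top ha hl', TheoryData.act_map_zero, TheoryData.ext_zero_left]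
        · rw [hgr_top hb (by rw [hE.dim]; push_cast; omega), TheoryData.act_map_zero,
            TheoryData.ext_zero_right]
    | zero => rw [TheoryData.act_map_zero]
    | add x y _ _ hx hy => rw [act_map_add, hx, hy, add_zero]
    | smul r x _ hx => rw [act_map_smul, hx, smul_zero]
  have h1 : C.comp z (prodCK C π τ (2 * (i + s + 1))) = 0 :=
    hD (X.prod E) _ (hS.prod X E π τ h' hE.mem) (i + s + 1) z hzm hkill
  have h2 : C.comp z (prodCK C π τ (2 * (i + s + 1))) = z := by
    unfold prodCK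
    rw [comp_sum, Finset.sum_eq_single j]
    · have e1 : 2 * (i + s + 1) - j = 1 := by omega
      rw [e1, hz, tens_comp C (ch_comm C), ext_comp, hyj, hE.ck.idem]
    · intro a _ ha
      rw [hz, tens_comp C (ch_comm C), ext_comp]
      have e2 : C.act (π a) y = 0 := by
        rw [← hyj, ← C.act_comp, h.orth j a (Ne.symm ha), TheoryData.act_zero]
      rw [e2, TheoryData.ext_zero_right, tens_zero_left]
    · intro h3
      rw [Finset.mem_range] at h3
      omega
  rw [h2] at h1
  have h3 : C.ext u y = 0 := zero_of_tens (H := H) hq hdeg h1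
  rw [ch_comm C v u] at huv
  exact zero_of_ext (H := H) huv h3

/-- (D) in families implies the first half of (B). -/
theorem B0_of_family (hD : ∀ (X : 𝒱.Obj) (π : ℕ → C.A (X.prod X)), 𝒮 X π → FamilyD H X π) (hS : IsSystem H 𝒮) {τ : ℕ → C.A (E.prod E)}
    (hE : IsPosCurve H 𝒮 E τ) {π : ℕ → C.A (X.prod X)} (h : 𝒮 X π) {i j : ℕ} {x : C.A X}
    (hx : x ∈ C.gr X i) (hij : 2 * i < j) : C.act (π j) x = 0 := by
  rcases Nat.even_or_odd' j with ⟨m, hm | hm⟩
  · obtain ⟨s, rfl⟩ : ∃ s, m = i + s := ⟨m - i, by omega⟩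
    rw [hm]
    exact even_of_family hD hS h (by omega) hx
  · obtain ⟨s, rfl⟩ : ∃ s, m = i + s := ⟨m - i, by omega⟩
    rw [hm]
    exact odd_of_family hD hS hE h hx

end Pool.Agent.W5h86.MU
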